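import Pool.Agent.Lib.LinEqSep.Asymp

open Finset Pool.Agent.LinEqSep

namespace Pool.Agent.Results.MP_484b1d_nt.HalfLower

/-- `A` contains no solution of `2x₁+2x₂+2x₃=3x₄+3x₅` with pairwise distinct `x₁,…,x₅ ∈ A`. -/
def SolutionFree (A : Finset ℕ) : Prop :=
  ¬ ∃ x : Fin 5 → ℕ, (∀ i, x i ∈ A) ∧ Function.Injective x ∧
    2 * x 0 + 2 * x 1 + 2 * x 2 = 3 * x 3 + 3 * x 4

/-- `R_E(N)`: the largest size of a subset of `{1, …, N}` without solution. -/
noncomputable def RE (N : ℕ) : ℕ :=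
  sSup {n : ℕ | ∃ A : Finset ℕ, A ⊆ Finset.Icc 1 N ∧ SolutionFree A ∧ A.card = n}

/-- Coefficients of the equation. -/
def aE : Fin 5 → ℤ := ![2, 2, 2, -3, -3]

/-- Separability over the integers. -/
def SepZ {ι : Type} (d f : ι → ℤ) : Prop :=
  ∀ σ : Fin 5 → ι, ∑ j, aE j * d (σ j) = 0 →
    0 ≤ ∑ j, aE j * f (σ j) ∧ ((∑ j, aE j * f (σ j)) = 0 → ∀ j j', σ j = σ j')

lemma sum_aE (v : Fin 5 → ℤ) :
    ∑ j, aE j * v j = 2 * v 0 + 2 * v 1 + 2 * v 2 - 3 * v 3 - 3 * v 4 := by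
  simp [Fin.sum_univ_five, aE]; ring

/-- The doubling step: two shifted and dilated copies in different residue classes mod 2. -/
lemma step {ι : Type} [Fintype ι] {d f : ι → ℤ} {M : ℤ} (hM : ∀ x, 0 ≤ d x ∧ d x ≤ M)
    (h : SepZ d f) :
    ∃ f' : Bool × ι → ℤ,
      SepZ (fun p : Bool × ι => 2 * d p.2 + (if p.1 then 2 * M + 1 else 0)) f' := by
  classical
  set d' : Bool × ι → ℤ := fun p => 2 * d p.2 + (if p.1 then 2 * M + 1 else 0) with hd'
  set g : Bool × ι → ℤ := fun p => |2 * d' p - (4 * M + 1)| with hg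
  set F : ℤ := ∑ x, |f x| with hF
  have hfF : ∀ x, |f x| ≤ F := fun x =>
    Finset.single_le_sum (f := fun x => |f x|) (fun i _ => abs_nonneg _) (Finset.mem_univ x)
  have hF0 : 0 ≤ F := Finset.sum_nonneg fun i _ => abs_nonneg _
  refine ⟨fun p => (12 * F + 1) * g p + f p.2, ?_⟩
  -- values of `g`
  have hgf : ∀ x, g (false, x) = (4 * M + 1) - 2 * d' (false, x) ∧ d' (false, x) ≤ 2 * M := by
    intro x
    obtain ⟨h0, h1⟩ := hM x
    have : d' (false, x) = 2 * d x := by simp [hd']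
    refine ⟨?_, by rw [this]; linarith⟩
    simp only [hg]
    rw [this, abs_of_neg (by linarith)]; ring
  have hgt : ∀ x, g (true, x) = 2 * d' (true, x) - (4 * M + 1) ∧ 2 * M + 1 ≤ d' (true, x) := by
    intro x
    obtain ⟨h0, h1⟩ := hM x
    have : d' (true, x) = 2 * d x + (2 * M + 1) := by simp [hd']
    refine ⟨?_, by rw [this]; linarith⟩
    simp only [hg]
    rw [this, abs_of_pos (by linarith)]
  intro σ hσ
  rw [sum_aE (fun j => d' (σ j))] at hσ
  have hpar : (σ 3).1 = (σ 4).1 := by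
    by_contra hne
    have h3 : d' (σ 3) = 2 * d (σ 3).2 + (if (σ 3).1 then 2 * M + 1 else 0) := rfl
    have h4 : d' (σ 4) = 2 * d (σ 4).2 + (if (σ 4).1 then 2 * M + 1 else 0) := rfl
    cases e3 : (σ 3).1 <;> cases e4 : (σ 4).1 <;> simp [e3, e4] at hne h3 h4 <;> omega
  have hcost : ∑ j, aE j * ((12 * F + 1) * g (σ j) + f (σ j).2) =
      (12 * F + 1) * (2 * g (σ 0) + 2 * g (σ 1) + 2 * g (σ 2) - 3 * g (σ 3) - 3 * g (σ 4)) +
        (2 * f (σ 0).2 + 2 * f (σ 1).2 + 2 * f (σ 2).2 - 3 * f (σ 3).2 - 3 * f (σ 4).2) := by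
    rw [sum_aE (fun j => (12 * F + 1) * g (σ j) + f (σ j).2)]; ring
  have hfb : -(12 * F) ≤
      2 * f (σ 0).2 + 2 * f (σ 1).2 + 2 * f (σ 2).2 - 3 * f (σ 3).2 - 3 * f (σ 4).2 := by
    have b := fun j => abs_le.mp (hfF (σ j).2)
    linarith [(b 0).1, (b 1).1, (b 2).1, (b 3).2, (b 4).2]
  by_cases hall : (σ 0).1 = (σ 3).1 ∧ (σ 1).1 = (σ 3).1 ∧ (σ 2).1 = (σ 3).1
  · -- all in the same half
    obtain ⟨a0, a1, a2⟩ := hall
    have hsame : ∀ j, (σ j).1 = (σ 3).1 := by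
      intro j; fin_cases j
      · exact a0
      · exact a1
      · exact a2
      · rfl
      · exact hpar.symm
    have hd2 : ∀ j, d' (σ j) = 2 * d (σ j).2 + (if (σ 3).1 then 2 * M + 1 else 0) := by
      intro j; simp only [hd']; rw [hsame j]
    have hz : ∑ j, aE j * d ((fun j => (σ j).2) j) = 0 := by
      rw [sum_aE (fun j => d ((fun j => (σ j).2) j))]
      rw [hd2 0, hd2 1, hd2 2, hd2 3, hd2 4] at hσ
      simp only
      linarith
    obtain ⟨c1, c2⟩ := h _ hz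
    rw [sum_aE (fun j => f ((fun j => (σ j).2) j))] at c1 c2
    have hg0 : 2 * g (σ 0) + 2 * g (σ 1) + 2 * g (σ 2) - 3 * g (σ 3) - 3 * g (σ 4) = 0 := by
      have key : ∀ j, g (σ j) = (if (σ 3).1 then 1 else -1) * (2 * d' (σ j) - (4 * M + 1)) := by
        intro j
        have e := hsame j
        have e2 : σ j = ((σ j).1, (σ j).2) := rfl
        cases hb : (σ 3).1
        · rw [hb] at e
          rw [e2, e, (hgf (σ j).2).1]; simp
        · rw [hb] at e
          rw [e2, e, (hgt (σ j).2).1]; simp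
      rw [key 0, key 1, key 2, key 3, key 4]
      linear_combination (2 * (if (σ 3).1 then 1 else -1 : ℤ)) * hσ
    rw [hcost, hg0, mul_zero, zero_add]
    refine ⟨c1, fun h0 j j' => ?_⟩
    exact Prod.ext ((hsame j).trans (hsame j').symm) (c2 h0 j j')
  · -- otherwise the cost is large
    have hg4 : 4 ≤ 2 * g (σ 0) + 2 * g (σ 1) + 2 * g (σ 2) - 3 * g (σ 3) - 3 * g (σ 4) := by
      cases hb : (σ 3).1
      · have lo : ∀ j, (4 * M + 1) - 2 * d' (σ j) ≤ g (σ j) ∧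
            ((σ j).1 ≠ false → (4 * M + 1) - 2 * d' (σ j) + 2 ≤ g (σ j)) ∧
            ((σ j).1 = false → g (σ j) = (4 * M + 1) - 2 * d' (σ j)) := by
          intro j
          have e2 : σ j = ((σ j).1, (σ j).2) := rfl
          cases e : (σ j).1
          · rw [e2, e]
            have := hgf (σ j).2
            exact ⟨this.1.ge, fun h => absurd rfl h, fun _ => this.1⟩
          · rw [e2, e]
            have := hgt (σ j).2
            exact ⟨by linarith [this.1, this.2], fun _ => by linarith [this.1, this.2],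
              fun h => by simp at h⟩
        have l3 := (lo 3).2.2 hb
        have l4 := (lo 4).2.2 (hpar ▸ hb)
        rw [hb] at hall
        by_cases a0 : (σ 0).1 = false
        · by_cases a1 : (σ 1).1 = false
          · have a2 : (σ 2).1 ≠ false := fun a2 => hall ⟨a0, a1, a2⟩
            linarith [(lo 0).1, (lo 1).1, (lo 2).2.1 a2]
          · linarith [(lo 0).1, (lo 2).1, (lo 1).2.1 a1]
        · linarith [(lo 1).1, (lo 2).1, (lo 0).2.1 a0]
      · have lo : ∀ j, 2 * d' (σ j) - (4 * M + 1) ≤ g (σ j) ∧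
            ((σ j).1 ≠ true → 2 * d' (σ j) - (4 * M + 1) + 2 ≤ g (σ j)) ∧
            ((σ j).1 = true → g (σ j) = 2 * d' (σ j) - (4 * M + 1)) := by
          intro j
          have e2 : σ j = ((σ j).1, (σ j).2) := rfl
          cases e : (σ j).1
          · rw [e2, e]
            have := hgf (σ j).2
            exact ⟨by linarith [this.1, this.2], fun _ => by linarith [this.1, this.2],
              fun h => by simp at h⟩
          · rw [e2, e]
            have := hgt (σ j).2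
            exact ⟨this.1.ge, fun h => absurd rfl h, fun _ => this.1⟩
        have l3 := (lo 3).2.2 hb
        have l4 := (lo 4).2.2 (hpar ▸ hb)
        rw [hb] at hall
        by_cases a0 : (σ 0).1 = true
        · by_cases a1 : (σ 1).1 = true
          · have a2 : (σ 2).1 ≠ true := fun a2 => hall ⟨a0, a1, a2⟩
            linarith [(lo 0).1, (lo 1).1, (lo 2).2.1 a2]
          · linarith [(lo 0).1, (lo 2).1, (lo 1).2.1 a1]
        · linarith [(lo 1).1, (lo 2).1, (lo 0).2.1 a0]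
    have hpos : 0 < ∑ j, aE j * ((12 * F + 1) * g (σ j) + f (σ j).2) := by
      rw [hcost]
      nlinarith
    exact ⟨hpos.le, fun h0 => absurd h0 hpos.ne'⟩

/-- The digit sets `D_j`: `2^j` integers in `[0, (4^j-1)/3]`. -/
lemma exists_digits (j : ℕ) : ∃ (ι : Type) (_ : Fintype ι) (d f : ι → ℤ) (M : ℤ),
    Fintype.card ι = 2 ^ j ∧ (∀ x, 0 ≤ d x ∧ d x ≤ M) ∧ 3 * M + 1 = 4 ^ j ∧ SepZ d f := by
  induction j with
  | zero =>
    refine ⟨Unit, inferInstance, fun _ => 0, fun _ => 0, 0, by simp, by simp, by simp, ?_⟩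
    intro σ _
    simp
  | succ j ih =>
    obtain ⟨ι, _, d, f, M, hcard, hb, hM, hs⟩ := ih
    obtain ⟨f', hf'⟩ := step hb hs
    refine ⟨Bool × ι, inferInstance, _, f', 4 * M + 1, ?_, ?_, ?_, hf'⟩
    · rw [Fintype.card_prod, Fintype.card_bool, hcard, pow_succ]; ring
    · rintro ⟨b, x⟩
      obtain ⟨h0, h1⟩ := hb x
      cases b
      · simp; constructor <;> linarith
      · simp; constructor <;> linarith
    · rw [pow_succ, ← hM]; ring

lemma free_solutionFree {A : Finset ℕ} (h : Free aE A) : SolutionFree A := by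
  rintro ⟨x, hx, hinj, he⟩
  have h1 : ∑ j, aE j * (x j : ℤ) = 0 := by
    rw [sum_aE (fun j => (x j : ℤ))]
    have : (2 * x 0 + 2 * x 1 + 2 * x 2 : ℤ) = 3 * x 3 + 3 * x 4 := by exact_mod_cast he
    linarith
  have h2 := h x hx h1 0 1
  exact absurd (hinj h2) (by decide)

lemma le_RE {N : ℕ} {A : Finset ℕ} (hA : A ⊆ Finset.Icc 1 N) (h : SolutionFree A) :
    A.card ≤ RE N := by
  refine le_csSup ⟨N, ?_⟩ ⟨A, hA, h, rfl⟩
  rintro n ⟨B, hB, -, rfl⟩
  simpa using Finset.card_le_card hB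

lemma sum_aE_zero : ∑ j, aE j = 0 := by
  simp [Fin.sum_univ_five, aE]

lemma main {ε : ℝ} (hε : 0 < ε) (hε2 : ε ≤ 1 / 2) :
    ∃ N0 : ℕ, ∀ N : ℕ, N0 ≤ N → (N : ℝ) ^ (1 / 2 - ε) ≤ RE N := by
  obtain ⟨j, hj⟩ := exists_nat_gt (1 / (4 * ε))
  obtain ⟨ι, _, d, f, M, hcard, hb, hM, hs⟩ := exists_digits j
  have e : Fin (2 ^ j) ≃ ι := (Fintype.equivFinOfCardEq hcard).symm
  have hpow : (1 : ℤ) ≤ 4 ^ j := one_le_pow₀ (by norm_num)
  have hsep : Sep aE ((2 * 4 ^ j : ℕ) : ℤ) (d ∘ e) (f ∘ e) := by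
    intro σ hσ
    have hz : ∑ i, aE i * d ((e ∘ σ) i) = 0 := by
      refine Int.eq_zero_of_abs_lt_dvd hσ ?_
      show |∑ i, aE i * d (e (σ i))| < _
      rw [sum_aE (fun i => d (e (σ i)))]
      have b := fun i => hb (e (σ i))
      push_cast
      rw [abs_lt]
      constructor <;> linarith [(b 0).1, (b 1).1, (b 2).1, (b 3).1, (b 4).1, (b 0).2, (b 1).2,
        (b 2).2, (b 3).2, (b 4).2]
    obtain ⟨h1, h2⟩ := hs (e ∘ σ) hz
    exact ⟨h1, fun h0 i i' => e.injective (h2 h0 i i')⟩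
  have hd : ∀ x, 0 ≤ (d ∘ e) x ∧ (d ∘ e) x < ((2 * 4 ^ j : ℕ) : ℤ) := by
    intro x
    obtain ⟨h0, h1⟩ := hb (e x)
    refine ⟨h0, ?_⟩
    push_cast
    show d (e x) < _
    linarith
  have hc : (1 / 2 - ε) * Real.log ((2 * 4 ^ j : ℕ) : ℝ) < Real.log ((2 ^ j : ℕ) : ℝ) := by
    have hl : 0 < Real.log 2 := Real.log_pos (by norm_num)
    have h4 : Real.log 4 = 2 * Real.log 2 := by
      rw [show (4 : ℝ) = 2 ^ 2 by norm_num, Real.log_pow]; norm_num
    push_cast
    rw [Real.log_mul (by norm_num) (by positivity), Real.log_pow, Real.log_pow, h4]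
    have h5 : 1 < j * (4 * ε) := by
      rwa [div_lt_iff₀ (by positivity)] at hj
    have h6 : (1 / 2 - ε) * (Real.log 2 + j * (2 * Real.log 2)) - j * Real.log 2 =
        Real.log 2 * (1 / 2 - ε - (j * (4 * ε)) / 2) := by ring
    have h7 : Real.log 2 * (1 / 2 - ε - (j * (4 * ε)) / 2) < 0 :=
      mul_neg_of_pos_of_neg hl (by linarith)
    linarith
  obtain ⟨N0, hN0⟩ := exists_free_large (by norm_num) sum_aE_zero (m := 2 * 4 ^ j)
    (by have : 1 ≤ 4 ^ j := Nat.one_le_pow _ _ (by norm_num)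
        omega) hd hsep (by linarith : (0 : ℝ) ≤ 1 / 2 - ε) hc
  refine ⟨N0, fun N hN => ?_⟩
  obtain ⟨A, hA, hfree, hcardA⟩ := hN0 N hN
  exact hcardA.trans (by exact_mod_cast le_RE hA (free_solutionFree hfree))

/-- `R_E(N) ≥ N^(1/2-ε)` for every `ε > 0` and all large `N`. -/
theorem result : ∀ ε : ℝ, 0 < ε → ∃ N0 : ℕ, ∀ N : ℕ, N0 ≤ N →
    (N : ℝ) ^ (1 / 2 - ε) ≤ (RE N : ℝ) := by
  intro ε hε
  obtain ⟨N0, h⟩ := main (ε := min ε (1 / 2)) (lt_min hε (by norm_num)) (min_le_right _ _)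
  refine ⟨max N0 1, fun N hN => le_trans ?_ (h N (le_of_max_le_left hN))⟩
  have h1 : (1 : ℝ) ≤ N := by exact_mod_cast le_of_max_le_right hN
  exact Real.rpow_le_rpow_of_exponent_le h1 (by linarith [min_le_left ε (1 / 2)])

end Pool.Agent.Results.MP_484b1d_nt.HalfLower
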